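import Pool.Agent.Helper21_UR.Final

/-!
# Strict log-concavity of the rank of unimodal sequences

For all `n ≥ 37` and `|m| ≤ n - 23`, the numbers `u(m,n)` of unimodal sequences with designated
peak of size `n` and rank `m` satisfy `u(m,n)² > u(m-1,n) u(m+1,n)`.
-/

namespace Pool.Agent.Results.MP_c97607_co.StrictLogConcavity

/-- Unimodal sequences with designated peak, of size `n` and rank `m`: triples `(a, c, b)` where
`a` is the list of the entries to the left of the marked peak `c` (weakly increasing), `b` is the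
list of the entries to its right (weakly decreasing), all entries are positive integers and at most
`c`, the sum of all entries, the peak included, is `n`, and `length b - length a = m`. -/
def Unimodal (m : ℤ) (n : ℕ) : Set (List ℕ × ℕ × List ℕ) :=
  {x | x.1.Pairwise (· ≤ ·) ∧ x.2.2.Pairwise (· ≥ ·) ∧ 1 ≤ x.2.1 ∧
    (∀ a ∈ x.1, 1 ≤ a ∧ a ≤ x.2.1) ∧ (∀ b ∈ x.2.2, 1 ≤ b ∧ b ≤ x.2.1) ∧
    x.1.sum + x.2.1 + x.2.2.sum = n ∧ (x.2.2.length : ℤ) - x.1.length = m}

/-- The number of unimodal sequences with designated peak of size `n` and rank `m`. -/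
noncomputable def u (m : ℤ) (n : ℕ) : ℕ := (Unimodal m n).ncard

theorem result : ∀ (n : ℕ) (m : ℤ), 37 ≤ n → |m| ≤ (n : ℤ) - 23 →
    u (m - 1) n * u (m + 1) n < u m n ^ 2 :=
  Pool.Agent.Helper21_UR.mainTheorem

end Pool.Agent.Results.MP_c97607_co.StrictLogConcavity
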